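import Mathlib

namespace Pool.Agent.MP_d9472f_gt

/-- A continuum: a nonempty compact connected metric space
(`ConnectedSpace` includes nonemptiness). -/
def IsContinuum (X : Type) [MetricSpace X] : Prop :=
  CompactSpace X ∧ ConnectedSpace X

/-- `X` can be mapped onto `Y`: there is a continuous surjection `X → Y`. -/
def MapsOnto (X Y : Type) [MetricSpace X] [MetricSpace Y] : Prop :=
  ∃ g : X → Y, Continuous g ∧ Function.Surjective g

/-- A chainable continuum: for every `ε > 0` it is covered by a simple chain of open sets
of diameter less than `ε`. -/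
def IsChainable (M : Type) [MetricSpace M] : Prop :=
  IsContinuum M ∧ ∀ ε : ℝ, 0 < ε → ∃ (n : ℕ) (L : Fin n → Set M),
    (∀ i, IsOpen (L i)) ∧
    (∀ i j, (L i ∩ L j).Nonempty ↔ |((i : ℕ) : ℤ) - ((j : ℕ) : ℤ)| ≤ 1) ∧
    (∀ i, Metric.diam (L i) < ε) ∧
    (⋃ i, L i) = Set.univ

/-- A weakly chainable continuum: a continuum that is a continuous image of a chainable
continuum. -/
def IsWeaklyChainable (Y : Type) [MetricSpace Y] : Prop :=
  IsContinuum Y ∧ ∃ (M : Type) (_ : MetricSpace M), IsChainable M ∧ MapsOnto M Y

/-- A real curve: a continuum that is a continuous injective image of the real line. -/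
def IsRealCurve (X : Type) [MetricSpace X] : Prop :=
  IsContinuum X ∧ ∃ f : ℝ → X, Continuous f ∧ Function.Injective f ∧ Function.Surjective f

end Pool.Agent.MP_d9472f_gt
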