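import Pool.Agent.MP_d9472f_gt.Defs

namespace Pool.Agent.MP_d9472f_gt

/-- A rational curve: a nondegenerate continuum in which any two distinct points `p`, `q` are
separated by a countable set `C` missing `p` and `q`: the complement of `C` is the union of two
mutually separated sets `A ∋ p` and `B ∋ q`. -/
def IsRationalCurve (X : Type) [MetricSpace X] : Prop :=
  IsContinuum X ∧ Nontrivial X ∧ ∀ p q : X, p ≠ q → ∃ C A B : Set X,
    C.Countable ∧ p ∉ C ∧ q ∉ C ∧ Cᶜ = A ∪ B ∧
      Disjoint (closure A) B ∧ Disjoint A (closure B) ∧ p ∈ A ∧ q ∈ B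

end Pool.Agent.MP_d9472f_gt
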